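import Pool.Agent.H59.OC.OCB

/-!
# Theorem OC for two rows: the plateau case of the step in regime alpha (`k = 1`, `m = 3`)

`A` is the position in the saturated direction, `B` the position in the thin direction, both in the
moving frame of the directions `(1, E, C)` of the fans; `s` is the slope of the thin plank in the
saturated direction and `B - s A` the row which is not full. The rows of `A` are full given the rows
of `B - s A`. The time `T` is a generalised time: it determines the frames.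
-/

set_option autoImplicit false

namespace Pool.S6O

open Finset Real
open Pool.Agent.H49.Ent Pool.Agent.H32.Dense Pool.STK Pool.KA Pool.OC Pool.K2S

variable {Ω Λ Θ : Type} [Fintype Ω]

/-- The data with two rows. -/
structure OC2Data {β : Type} (p : Ω → ℝ) (b : Ω → β) (L : Ω → Λ) (T : Ω → Θ)
    (y om beA beB mA mB th E C s A B : Ω → ℝ) : Prop where
  law : IsLaw p
  dy : Det p (fun ω => (b ω, L ω)) y
  dom : Det p (fun ω => (b ω, L ω)) om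
  dbeA : Det p (fun ω => (b ω, L ω)) beA
  dbeB : Det p (fun ω => (b ω, L ω)) beB
  dmA : Det p (fun ω => (b ω, L ω)) mA
  dmB : Det p (fun ω => (b ω, L ω)) mB
  dth : Det p (fun ω => (b ω, T ω)) th
  dE : Det p (fun ω => (b ω, T ω)) E
  dC : Det p (fun ω => (b ω, T ω)) C
  ds : Det p (fun ω => (b ω, T ω)) s
  hy : ∀ ω, 0 < p ω → 0 ≤ y ω ∧ y ω < 1
  hom : ∀ ω, 0 < p ω → 0 ≤ om ω ∧ om ω < 1
  hbeA : ∀ ω, 0 < p ω → 0 ≤ beA ω ∧ beA ω < 1
  hbeB : ∀ ω, 0 < p ω → 0 ≤ beB ω ∧ beB ω < 1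
  hmA : ∀ ω, 0 < p ω → 0 ≤ mA ω ∧ mA ω < 1
  hth : ∀ ω, 0 < p ω → 0 ≤ th ω ∧ th ω < 1
  hE : ∀ ω, 0 < p ω → |E ω| ≤ 4
  hC : ∀ ω, 0 < p ω → |C ω| ≤ 4
  hs : ∀ ω, 0 < p ω → |s ω| ≤ 4
  hA : ∀ ω, 0 < p ω → A ω = mA ω + th ω * beA ω - E ω * (y ω + th ω * om ω)
  hB : ∀ ω, 0 < p ω → B ω = mB ω + th ω * beB ω - C ω * (y ω + th ω * om ω)

/-- **(OC2)** The plateau case: two rows, one of them full given the other one. -/
def OC2Stmt : Prop :=
  ∀ c ca : ℝ, 0 < c → 0 < ca → ∃ (x₀ κ ϖ ι ε : ℝ) (X₀ : ℕ), 0 < x₀ ∧ 0 < κ ∧ κ ≤ 1 ∧ 0 < ϖ ∧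
    0 < ι ∧ 0 < ε ∧
    ∀ (Ω β Λ Θ : Type) [Fintype Ω] (p : Ω → ℝ) (b : Ω → β) (L : Ω → Λ) (T : Ω → Θ)
      (y om beA beB mA mB th E C s A B : Ω → ℝ) (X : ℕ),
      OC2Data p b L T y om beA beB mA mB th E C s A B → X₀ ≤ X →
      Pool.KVA.MI p T L b ≤ ι * X →
      (1 - ι) * X * Real.log 2 ≤ CH p (Uni.dg X th) (fun ω => (L ω, b ω)) →
      CH p (fun ω => (Uni.dg X A ω, Uni.dg X B ω)) (fun ω => (b ω, T ω)) -
        CH p (fun ω => (Uni.dg X A ω, Uni.dg X B ω)) (fun ω => ((Uni.dg X y ω, (Uni.dg X om ω,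
          (Uni.dg X beA ω, Uni.dg X beB ω))), (b ω, T ω))) ≤ ι * X →
      (1 - ι) * X * Real.log 2 ≤ CH p (Uni.dg X y) (fun ω => (Uni.dg X om ω, b ω)) →
      ca * X * Real.log 2 ≤ CH p (Uni.dg X om) b →
      (1 - ι) * X * Real.log 2 ≤
        CH p (Uni.dg X A) (fun ω => (Uni.dg X (fun v => B v - s v * A v) ω, (b ω, T ω))) →
      (∀ r₁ r₂ : ℕ, r₂ ≤ X → (r₁ : ℝ) + κ * X ≤ r₂ → ∀ E' : Ω → Prop, ϖ ≤ Pe p E' →
        CH (Pool.Agent.H49.Ent.cond p E' True) (Uni.dg r₂ (fun v => B v - s v * A v))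
          (fun ω => (Uni.dg r₁ (fun v => B v - s v * A v) ω, (b ω, T ω))) ≤
          (1 - c) * ((r₂ : ℝ) - r₁) * Real.log 2) →
      Pool.KAF.Pr (dbl p (fun ω => (L ω, b ω))) {w | |s w.1 - s w.2| < (2 : ℝ) ^ (-(x₀ * X)) ∧
        |(C w.1 - s w.1 * E w.1) - (C w.2 - s w.2 * E w.2)| < (2 : ℝ) ^ (-(x₀ * X))} ≤ ε →
      False

end Pool.S6O
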